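import Pool.Agent.Helper7.BM.Goals2

/-!
# Project BM, packet CB: the case of large `α`
-/

set_option autoImplicit false

open Finset
open Pool.Agent.Helper7.BM

namespace Pool.Agent.Helper77.BM

lemma le_three_pow (k : ℕ) : k + 1 ≤ 3 ^ k := by
  induction k with
  | zero => norm_num
  | succ k ih =>
    rw [pow_succ]
    omega

lemma fact_le (M : ℕ) : M.factorial ≤ 3 ^ (M * (M - 1) / 2) := by
  induction M with
  | zero => simp
  | succ M ih =>
    rw [Nat.factorial_succ, Nat.add_sub_cancel]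
    have h1 : (M + 1) * M / 2 = M + M * (M - 1) / 2 := by
      rcases M with _ | M
      · rfl
      · rw [Nat.add_sub_cancel]
        have : (M + 1 + 1) * (M + 1) = 2 * (M + 1) + (M + 1) * M := by ring
        rw [this, Nat.mul_add_div (by norm_num)]
    rw [h1, pow_add]
    exact Nat.mul_le_mul (le_three_pow M) ih

lemma det_cond (K Y X l : ℕ) (hK : 2 ≤ K) (hY : 1 ≤ Y) (hX : X ≤ Y ^ K) (hl : 3 * Y ^ 2 < l) :
    (K * K).factorial * X ^ (K * (K * (K - 1) / 2)) * X ^ (K * (K * (K - 1) / 2)) <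
      l ^ (K * K * (K * K - 1) / 2) := by
  obtain ⟨c, hc⟩ : ∃ c, K * (K - 1) = 2 * c := by
    have := Nat.even_mul_pred_self K
    obtain ⟨c, hc⟩ := this
    exact ⟨c, by omega⟩
  have hc2 : K * (K - 1) / 2 = c := by omega
  have hKK : K * K * (K * K - 1) = 2 * (c * K * (K + 1)) := by
    obtain ⟨m, rfl⟩ : ∃ m, K = m + 1 := ⟨K - 1, by omega⟩
    have h1 : (m + 1) * (m + 1) - 1 = m * (m + 2) := by
      have : (m + 1) * (m + 1) = m * (m + 2) + 1 := by ring
      omega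
    rw [h1]
    rw [Nat.add_sub_cancel] at hc
    calc (m + 1) * (m + 1) * (m * (m + 2)) = ((m + 1) * m) * (m + 1) * (m + 1 + 1) := by ring
      _ = 2 * (c * (m + 1) * (m + 1 + 1)) := by rw [hc]; ring
  have hE : K * K * (K * K - 1) / 2 = c * K * (K + 1) := by omega
  have hc1 : 1 ≤ c := by
    have : 2 * 1 ≤ K * (K - 1) := Nat.mul_le_mul hK (by omega)
    omega
  have hfact := fact_le (K * K)
  rw [hE] at hfact ⊢
  rw [hc2]
  have hXp : X ^ (K * c) * X ^ (K * c) ≤ (Y ^ 2) ^ (c * K * (K + 1)) := by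
    rw [← pow_add, ← pow_mul]
    calc X ^ (K * c + K * c) ≤ (Y ^ K) ^ (K * c + K * c) := Nat.pow_le_pow_left hX _
      _ = Y ^ (K * (K * c + K * c)) := by rw [← pow_mul]
      _ ≤ Y ^ (2 * (c * K * (K + 1))) := Nat.pow_le_pow_right hY (by nlinarith)
  calc (K * K).factorial * X ^ (K * c) * X ^ (K * c)
      = (K * K).factorial * (X ^ (K * c) * X ^ (K * c)) := by ring
    _ ≤ 3 ^ (c * K * (K + 1)) * (Y ^ 2) ^ (c * K * (K + 1)) := Nat.mul_le_mul hfact hXp
    _ = (3 * Y ^ 2) ^ (c * K * (K + 1)) := by rw [mul_pow]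
    _ < l ^ (c * K * (K + 1)) := by
        refine Nat.pow_lt_pow_left hl ?_
        positivity

/-- the case of large `α` -/
theorem cb : StmtCB := by
  intro hDM hSGP K Y X a b d α β hK hY hX hprod hd hβ hcop ha hb hKα hba hder
  obtain ⟨s1, s2, s3, s4, -, -⟩ := hSGP
  have hα : 0 < α := by omega
  have hb1 : 1 ≤ b := by rw [hb]; exact Nat.mul_pos hd hβ
  have ha1 : 1 ≤ a := by rw [ha]; exact Nat.mul_pos hd hα
  set n := 3 * Y ^ 2 with hn
  set LL := (Ioc n (n ^ 2)).filter Nat.Prime with hLL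
  set Z : Finset (ℤ × ℤ) := (Pr a b X).image (fun z => ((z.1 : ℤ), (z.2 : ℤ))) with hZ
  have hinj : Function.Injective (fun z : ℕ × ℕ => ((z.1 : ℤ), (z.2 : ℤ))) := by
    rintro ⟨x, y⟩ ⟨x', y'⟩ h
    simp only [Prod.mk.injEq, Nat.cast_inj] at h
    rw [h.1, h.2]
  have hcard : Z.card = (Pr a b X).card := card_image_of_injective _ hinj
  have hmem : ∀ z ∈ Z, ∃ x y : ℕ, z = ((x : ℤ), (y : ℤ)) ∧ x ≤ X ∧ y ≤ X ∧ 2 ≤ x ∧ x < y ∧
      sg x a = sg y b := by
    intro z hz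
    obtain ⟨⟨x, y⟩, hxy, rfl⟩ := mem_image.mp hz
    unfold Pr at hxy
    rw [mem_filter, mem_product, mem_range, mem_range] at hxy
    exact ⟨x, y, rfl, by omega, by omega, hxy.2.1, hxy.2.2.1, hxy.2.2.2⟩
  have h := hDM (sgp a) (sgp b) d α β K K X X LL hd hα hβ hcop (s1 a).1 (s1 b).1
    ((s1 a).2.trans ha) ((s1 b).2.trans hb) hKα ?_ Z ?_ ?_
  · rw [hcard, ← ha, ← hb] at h
    have hLLc : LL.card ≤ n ^ 2 := by
      calc LL.card ≤ (Ioc n (n ^ 2)).card := card_filter_le _ _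
        _ = n ^ 2 - n := by rw [Nat.card_Ioc]
        _ ≤ n ^ 2 := Nat.sub_le _ _
    have hterm : ∀ l ∈ LL, a * l * ((a + K) * (b + K)) ≤ a * n ^ 2 * ((2 * a) * (2 * a)) := by
      intro l hl
      have hl2 : l ≤ n ^ 2 := (mem_Ioc.mp (mem_filter.mp hl).1).2
      have hKa : K ≤ a := hKα.trans (by rw [ha]; exact Nat.le_mul_of_pos_left α hd)
      exact Nat.mul_le_mul (Nat.mul_le_mul le_rfl hl2) (Nat.mul_le_mul (by omega) (by omega))
    calc (Pr a b X).card ≤ ∑ l ∈ LL, a * l * ((a + K) * (b + K)) := h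
      _ ≤ ∑ _l ∈ LL, a * n ^ 2 * ((2 * a) * (2 * a)) := sum_le_sum hterm
      _ = LL.card * (a * n ^ 2 * ((2 * a) * (2 * a))) := by rw [sum_const, smul_eq_mul]
      _ ≤ n ^ 2 * (a * n ^ 2 * ((2 * a) * (2 * a))) := Nat.mul_le_mul hLLc le_rfl
      _ = 324 * a ^ 3 * Y ^ 8 := by rw [hn]; ring
  · intro l hl
    obtain ⟨hl1, hl2⟩ := mem_filter.mp hl
    exact ⟨hl2, det_cond K Y X l hK hY hX (mem_Ioc.mp hl1).1⟩
  · intro z hz
    obtain ⟨x, y, rfl, hx, hy, hx2, hxy, hs⟩ := hmem z hz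
    obtain ⟨h1, h2⟩ := s3 b y hb1 (by omega)
    refine ⟨?_, ?_, ?_, h1.ne', ?_⟩
    · change (sgp a).eval (x : ℤ) = (sgp b).eval (y : ℤ)
      rw [s2, s2, hs]
    · change |(x : ℤ)| ≤ X
      rw [Nat.abs_cast]
      exact_mod_cast hx
    · change |(y : ℤ)| ≤ X
      rw [Nat.abs_cast]
      exact_mod_cast hy
    · change |(sgp b).derivative.eval (y : ℤ)| < _
      rw [abs_of_pos h1]
      have h3 : b ^ 2 * y ^ b < ∏ l ∈ LL, l := by
        calc b ^ 2 * y ^ b ≤ b ^ 2 * X ^ b := Nat.mul_le_mul le_rfl (Nat.pow_le_pow_left hy _)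
          _ < 2 ^ n := hder
          _ ≤ _ := hprod
      have h4 : ((b ^ 2 * y ^ b : ℕ) : ℤ) < ((∏ l ∈ LL, l : ℕ) : ℤ) := Nat.cast_lt.mpr h3
      rw [Nat.cast_prod, Nat.cast_mul, Nat.cast_pow, Nat.cast_pow] at h4
      exact h2.trans_lt h4
  · intro z hz z' hz' hzz
    obtain ⟨x, y, rfl, hx, hy, hx2, hxy, hs⟩ := hmem z hz
    obtain ⟨x', y', rfl, hx', hy', hx2', hxy', hs'⟩ := hmem z' hz'
    have hyy : y = y' := by
      have : (y : ℤ) = (y' : ℤ) := hzz
      exact_mod_cast this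
    subst hyy
    have hxx : x = x' := by
      rcases lt_trichotomy x x' with h1 | h1 | h1
      · have := s4 a x x' ha1 (by omega) h1
        omega
      · exact h1
      · have := s4 a x' x ha1 (by omega) h1
        omega
    rw [hxx]

end Pool.Agent.Helper77.BM
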