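import Pool.Agent.Helper7.BM.Goals

/-!
# Project BM, packet HERM: Hermite interpolation with bounded coefficients
-/

set_option autoImplicit false

open Finset Polynomial
open Pool.Agent.Helper7.BM

namespace Pool.Agent.Helper77.BM

/-- the polynomial with coefficients `a` -/
noncomputable def pol {n : ℕ} (a : Fin n → ℝ) : ℝ[X] := ∑ k : Fin n, C (a k) * X ^ (k : ℕ)

lemma pol_coeff {n : ℕ} (a : Fin n → ℝ) (k : Fin n) : (pol a).coeff k = a k := by
  unfold pol
  rw [finsetSum_coeff, Finset.sum_eq_single k]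
  · simp
  · intro b _ hb
    have : (k : ℕ) ≠ b := fun h => hb (Fin.ext h.symm)
    rw [coeff_C_mul, coeff_X_pow, if_neg this, mul_zero]
  · simp

lemma pol_coeff' {n : ℕ} (a : Fin n → ℝ) (k : ℕ) (hk : n ≤ k) : (pol a).coeff k = 0 := by
  unfold pol
  rw [finsetSum_coeff]
  refine Finset.sum_eq_zero fun b _ => ?_
  have : k ≠ b := by have := b.2; omega
  rw [coeff_C_mul, coeff_X_pow, if_neg this, mul_zero]

lemma pol_natDegree {n : ℕ} (hn : 0 < n) (a : Fin n → ℝ) : (pol a).natDegree < n := by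
  refine lt_of_le_of_lt (b := n - 1) ?_ (by omega)
  rw [natDegree_le_iff_coeff_eq_zero]
  intro k hk
  exact pol_coeff' a k (by omega)

lemma pol_deriv {n : ℕ} (a : Fin n → ℝ) (j : ℕ) (x : ℝ) :
    (derivative^[j] (pol a)).eval x =
      ∑ k : Fin n, ((Nat.descFactorial k j : ℕ) : ℝ) * x ^ ((k : ℕ) - j) * a k := by
  unfold pol
  rw [iterate_derivative_sum, eval_finsetSum]
  refine Finset.sum_congr rfl fun k _ => ?_
  rw [iterate_derivative_C_mul, iterate_derivative_X_pow_eq_natCast_mul]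
  simp only [eval_mul, eval_C, eval_natCast, eval_pow, eval_X]
  ring

/-- a polynomial of small degree with many zeros vanishes -/
lemma pol_zero (S T : ℕ) (P : ℝ[X]) (hdeg : P.natDegree < T * S)
    (h : ∀ l : Fin S, ∀ j < T, (derivative^[j] P).eval (((l : ℕ) : ℝ) + 1) = 0) : P = 0 := by
  by_contra hP
  rcases Nat.eq_zero_or_pos T with hT | hT
  · rw [hT, zero_mul] at hdeg
    omega
  have h1 : ∀ l : Fin S, T ≤ P.roots.count (((l : ℕ) : ℝ) + 1) := by
    intro l
    rw [count_roots]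
    have : T - 1 < P.rootMultiplicity (((l : ℕ) : ℝ) + 1) := by
      rw [lt_rootMultiplicity_iff_isRoot_iterate_derivative hP]
      intro m hm
      exact h l m (by omega)
    omega
  have hinj : Function.Injective (fun l : Fin S => ((l : ℕ) : ℝ) + 1) := by
    intro l l' hll
    have : ((l : ℕ) : ℝ) = ((l' : ℕ) : ℝ) := by simpa using hll
    exact Fin.ext (by exact_mod_cast this)
  have h2 : ∑ l : Fin S, P.roots.count (((l : ℕ) : ℝ) + 1) ≤ P.roots.card := by
    rw [← Finset.sum_image (s := univ) (g := fun l : Fin S => ((l : ℕ) : ℝ) + 1)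
      (f := fun x => P.roots.count x) (fun l _ l' _ h => hinj h)]
    rw [← Multiset.toFinset_sum_count_eq P.roots]
    refine Finset.sum_le_sum_of_subset ?_
    intro x hx
    obtain ⟨l, -, rfl⟩ := Finset.mem_image.mp hx
    rw [Multiset.mem_toFinset, ← Multiset.one_le_count_iff_mem]
    exact hT.trans_le (h1 l)
  have h3 : T * S ≤ ∑ l : Fin S, P.roots.count (((l : ℕ) : ℝ) + 1) := by
    calc T * S = ∑ _l : Fin S, T := by simp [mul_comm]
      _ ≤ _ := Finset.sum_le_sum fun l _ => h1 l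
  have h4 := P.card_roots'
  omega

/-- the matrix of the interpolation problem -/
def mat (S T : ℕ) : Matrix (Fin (T * S)) (Fin (T * S)) ℤ := fun i k =>
  (((Nat.descFactorial k (finProdFinEquiv.symm i).1 *
    (((finProdFinEquiv.symm i).2 : ℕ) + 1) ^ ((k : ℕ) - ((finProdFinEquiv.symm i).1 : ℕ)) : ℕ)) : ℤ)

lemma mat_bound (S T : ℕ) (i k : Fin (T * S)) :
    |((mat S T i k : ℤ) : ℝ)| ≤ (((T * S : ℕ) : ℝ) * S) ^ (T * S) := by
  unfold mat
  rw [Int.cast_natCast, Nat.abs_cast]
  have hn : 0 < T * S := lt_of_le_of_lt (Nat.zero_le _) k.2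
  have hS : 0 < S := by
    rcases Nat.eq_zero_or_pos S with h0 | h0
    · rw [h0, mul_zero] at hn
      exact absurd hn (lt_irrefl _)
    · exact h0
  have hT : T ≤ T * S := Nat.le_mul_of_pos_right T hS
  set j := (finProdFinEquiv.symm i).1 with hj
  set l := (finProdFinEquiv.symm i).2 with hl
  have h1 : Nat.descFactorial k j ≤ (T * S) ^ (T * S) := by
    calc Nat.descFactorial k j ≤ (k : ℕ) ^ (j : ℕ) := Nat.descFactorial_le_pow _ _
      _ ≤ (T * S) ^ (j : ℕ) := Nat.pow_le_pow_left k.2.le _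
      _ ≤ (T * S) ^ (T * S) := Nat.pow_le_pow_right hn (j.2.le.trans hT)
  have h2 : ((l : ℕ) + 1) ^ ((k : ℕ) - (j : ℕ)) ≤ S ^ (T * S) := by
    calc ((l : ℕ) + 1) ^ ((k : ℕ) - (j : ℕ)) ≤ S ^ ((k : ℕ) - (j : ℕ)) :=
          Nat.pow_le_pow_left l.2 _
      _ ≤ S ^ (T * S) := Nat.pow_le_pow_right hS (by have := k.2; omega)
  have h3 := Nat.mul_le_mul h1 h2
  rw [mul_pow]
  exact_mod_cast h3

lemma mat_mulVec (S T : ℕ) (a : Fin (T * S) → ℝ) (i : Fin (T * S)) :
    ((mat S T).map (Int.cast : ℤ → ℝ)).mulVec a i =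
      (derivative^[((finProdFinEquiv.symm i).1 : ℕ)] (pol a)).eval
        ((((finProdFinEquiv.symm i).2 : ℕ) : ℝ) + 1) := by
  rw [pol_deriv]
  unfold Matrix.mulVec dotProduct
  refine Finset.sum_congr rfl fun k _ => ?_
  change ((mat S T i k : ℤ) : ℝ) * a k = _
  unfold mat
  push_cast
  ring

lemma mat_det (S T : ℕ) : (mat S T).det ≠ 0 := by
  intro h
  have h1 : ((mat S T).map (Int.cast : ℤ → ℝ)).det = 0 := by
    have := (Int.castRingHom ℝ).map_det (mat S T)
    rw [h, map_zero] at this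
    exact this.symm
  obtain ⟨v, hv, hv0⟩ := Matrix.exists_mulVec_eq_zero_iff.mpr h1
  have hn : 0 < T * S := by
    by_contra hcon
    apply hv
    funext k
    exact absurd k.2 (by omega)
  have h2 : pol v = 0 := by
    refine pol_zero S T (pol v) (pol_natDegree hn v) fun l j hj => ?_
    have h3 := mat_mulVec S T v (finProdFinEquiv (⟨j, hj⟩, l))
    rw [hv0, Equiv.symm_apply_apply] at h3
    exact h3.symm
  apply hv
  funext k
  rw [← pol_coeff v k, h2]
  rfl

/-- Hermite interpolation with bounded coefficients -/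
theorem herm : StmtHERM := by
  intro S T y η hS hT hη hy
  set n := T * S with hn
  have hn0 : 0 < n := Nat.mul_pos hT hS
  set B : Matrix (Fin n) (Fin n) ℝ := (mat S T).map (Int.cast : ℤ → ℝ) with hB
  have hdet : B.det = (((mat S T).det : ℤ) : ℝ) := by
    have := (Int.castRingHom ℝ).map_det (mat S T)
    exact this.symm
  have hdet1 : 1 ≤ |B.det| := by
    rw [hdet]
    exact_mod_cast Int.one_le_abs (mat_det S T)
  have hdet0 : B.det ≠ 0 := by
    intro h
    rw [h, abs_zero] at hdet1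
    linarith
  set y' : Fin n → ℝ := fun i =>
    y (((finProdFinEquiv.symm i).2 : ℕ) + 1) ((finProdFinEquiv.symm i).1 : ℕ) with hy'
  set b : Fin n → ℝ := fun i => y' i / η with hb
  have hyb : ∀ i, y' i = η * b i := by
    intro i
    rcases hη.eq_or_lt with h0 | h0
    · have h1 := hy (((finProdFinEquiv.symm i).2 : ℕ) + 1) ((finProdFinEquiv.symm i).1 : ℕ)
      rw [← h0] at h1 ⊢
      rw [zero_mul]
      exact abs_nonpos_iff.mp h1
    · rw [hb]
      field_simp
  have hb1 : ∀ i, |b i| ≤ 1 := by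
    intro i
    rw [hb, abs_div, abs_of_nonneg hη]
    exact div_le_one_of_le₀ (hy _ _) hη
  set E : ℝ := (((T * S : ℕ) : ℝ) * S) ^ (T * S) with hE
  have hbase : (1 : ℝ) ≤ ((T * S : ℕ) : ℝ) * S := by
    have h1 : (1 : ℝ) ≤ ((T * S : ℕ) : ℝ) := by exact_mod_cast hn0
    have h2 : (1 : ℝ) ≤ (S : ℝ) := by exact_mod_cast hS
    nlinarith
  have hE1 : 1 ≤ E := one_le_pow₀ hbase
  -- Cramer
  set a : Fin n → ℝ := (B.det)⁻¹ • B.cramer y' with ha
  have hsol : B.mulVec a = y' := by
    rw [ha, Matrix.mulVec_smul, Matrix.mulVec_cramer, smul_smul, inv_mul_cancel₀ hdet0, one_smul]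
  have hbound : ∀ k, |a k| ≤ η * (((T * S : ℕ) : ℝ) * S) ^ (2 * (T * S) ^ 2) := by
    intro k
    have h1 : B.cramer y' k = η * B.cramer b k := by
      have : y' = η • b := funext fun i => by rw [hyb]; rfl
      rw [this, map_smul]
      rfl
    have h2 : |B.cramer b k| ≤ (n.factorial : ℝ) * E ^ n := by
      rw [Matrix.cramer_apply]
      have h3 := Matrix.det_le (A := B.updateCol k b) (abv := AbsoluteValue.abs) (x := E) ?_
      · rw [Fintype.card_fin, nsmul_eq_mul] at h3
        exact h3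
      · intro i j
        rw [AbsoluteValue.abs_apply, Matrix.updateCol_apply]
        split_ifs with hjk
        · exact (hb1 i).trans hE1
        · exact mat_bound S T i j
    have h4 : (n.factorial : ℝ) * E ^ n ≤ (((T * S : ℕ) : ℝ) * S) ^ (2 * (T * S) ^ 2) := by
      have h5 : (n.factorial : ℝ) ≤ (((T * S : ℕ) : ℝ) * S) ^ n := by
        calc (n.factorial : ℝ) ≤ (n : ℝ) ^ n := by exact_mod_cast Nat.factorial_le_pow n
          _ ≤ (((T * S : ℕ) : ℝ) * S) ^ n := by
              refine pow_le_pow_left₀ (by positivity) ?_ n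
              have h2 : (1 : ℝ) ≤ (S : ℝ) := by exact_mod_cast hS
              rw [← hn]
              exact le_mul_of_one_le_right (by positivity) h2
      calc (n.factorial : ℝ) * E ^ n ≤ (((T * S : ℕ) : ℝ) * S) ^ n * E ^ n :=
            mul_le_mul_of_nonneg_right h5 (by positivity)
        _ = (((T * S : ℕ) : ℝ) * S) ^ (n + n * n) := by
            rw [hE, ← hn, ← pow_mul, ← pow_add]
        _ ≤ _ := by
            refine pow_le_pow_right₀ hbase ?_
            rw [← hn]
            nlinarith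
    have h5 : |a k| = |B.det|⁻¹ * (η * |B.cramer b k|) := by
      rw [ha, Pi.smul_apply, smul_eq_mul, h1, abs_mul, abs_mul, abs_inv, abs_of_nonneg hη]
    rw [h5]
    calc |B.det|⁻¹ * (η * |B.cramer b k|) ≤ 1 * (η * |B.cramer b k|) :=
          mul_le_mul_of_nonneg_right (inv_le_one_of_one_le₀ hdet1) (by positivity)
      _ = η * |B.cramer b k| := one_mul _
      _ ≤ _ := mul_le_mul_of_nonneg_left (h2.trans h4) hη
  refine ⟨pol a, pol_natDegree hn0 a, ?_, ?_⟩
  · intro l hl j hj
    rw [Finset.mem_Icc] at hl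
    have h3 := mat_mulVec S T a (finProdFinEquiv (⟨j, hj⟩, ⟨l - 1, by omega⟩))
    have h4 : (mat S T).map (Int.cast : ℤ → ℝ) = B := rfl
    rw [h4, hsol, hy'] at h3
    simp only [Equiv.symm_apply_apply] at h3
    have h5 : l - 1 + 1 = l := by omega
    have h6 : (((l - 1 : ℕ) : ℝ) + 1) = (l : ℝ) := by exact_mod_cast congrArg (Nat.cast (R := ℝ)) h5
    rw [h5, h6] at h3
    exact h3.symm
  · intro k
    by_cases hk : k < n
    · rw [show (pol a).coeff k = a ⟨k, hk⟩ from pol_coeff a ⟨k, hk⟩]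
      exact hbound _
    · rw [pol_coeff' a k (by omega), abs_zero]
      positivity

end Pool.Agent.Helper77.BM
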